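import Mathlib
import Pool.Agent.W522.U.Defs

/-!
# The condition on the quadratic unipotent elements
-/

namespace Pool.Agent.W528.Tor

open Module Pool.Agent.W522.U

variable {K : Type*} [Field K] {X : Type*} [AddCommGroup X] [Module K X]
  {Γ : Type*} [Group Γ] (R : Representation K Γ X) (χ : Γ →* K)

/-- There is a nonzero alternating pairing on `U` on which a subgroup of finite index acts by the
character `χ`. -/
def AltDual (U : Submodule K X) : Prop :=
  ∃ Δ : Subgroup Γ, Δ.FiniteIndex ∧ ∃ B : X →ₗ[K] X →ₗ[K] K, (∃ u ∈ U, ∃ v ∈ U, B u v ≠ 0) ∧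
    (∀ u ∈ U, B u u = 0) ∧ ∀ g ∈ Δ, ∀ u ∈ U, ∀ v ∈ U, B (R g u) (R g v) = χ g * B u v

/-- For every strongly irreducible subspace `U` of dimension at least two there is an element `γ`
of the group with `(γ - 1) ^ 2 = 0` such that the rank of `γ - 1` on `U` is one, or the rank is
two and `U` is self-dual with an alternating pairing. -/
def HasSmallUnipotents : Prop :=
  ∀ U, SI R U → 2 ≤ finrank K U → ∃ γ : Γ, (R γ - 1) * (R γ - 1) = 0 ∧
    (finrank K (U.map (R γ - 1)) = 1 ∨ (finrank K (U.map (R γ - 1)) = 2 ∧ AltDual R χ U))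

end Pool.Agent.W528.Tor
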