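import Mathlib

/-!
# Words of homogeneous elements applied to an extremal vector
-/

set_option linter.unusedSectionVars false
set_option linter.deprecated false

namespace Pool.Agent.W528.Tor

open Module

noncomputable section

variable {k : Type*} [Field k] [CharZero k] {V : Type*} [AddCommGroup V] [Module k V]

/-- The smallest subspace containing `a` and stable under the operators in `𝔥`. -/
def gen (𝔥 : Submodule k (Module.End k V)) (a : V) : Submodule k V :=
  sInf {U | a ∈ U ∧ ∀ X ∈ 𝔥, ∀ u ∈ U, X u ∈ U}

theorem gen_le {𝔥 : Submodule k (Module.End k V)} {a : V} {U : Submodule k V} (ha : a ∈ U)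
    (hU : ∀ X ∈ 𝔥, ∀ u ∈ U, X u ∈ U) : gen 𝔥 a ≤ U := sInf_le ⟨ha, hU⟩

theorem mem_gen_self (𝔥 : Submodule k (Module.End k V)) (a : V) : a ∈ gen 𝔥 a := by
  rw [gen, Submodule.mem_sInf]
  intro U hU
  exact hU.1

theorem gen_stable {𝔥 : Submodule k (Module.End k V)} {a : V} {X : Module.End k V} (hX : X ∈ 𝔥)
    {u : V} (hu : u ∈ gen 𝔥 a) : X u ∈ gen 𝔥 a := by
  rw [gen, Submodule.mem_sInf] at hu ⊢
  intro U hU
  exact hU.2 X hX u (hu U hU)

variable (𝔥 : Submodule k (Module.End k V)) (H : Module.End k V)

/-- The value of a word on a vector. -/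
def wval : List (Module.End k V × ℤ) → V → V
  | [], v => v
  | p :: L, v => p.1 (wval L v)

theorem wval_append (L1 L2 : List (Module.End k V × ℤ)) (v : V) :
    wval (L1 ++ L2) v = wval L1 (wval L2 v) := by
  induction L1 with
  | nil => rfl
  | cons p L1 ih =>
    change p.1 (wval (L1 ++ L2) v) = p.1 (wval L1 (wval L2 v))
    rw [ih]

theorem wval_add (L : List (Module.End k V × ℤ)) (u v : V) :
    wval L (u + v) = wval L u + wval L v := by
  induction L with
  | nil => rfl
  | cons p L ih =>
    change p.1 (wval L (u + v)) = p.1 (wval L u) + p.1 (wval L v)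
    rw [ih, map_add]

theorem wval_zero (L : List (Module.End k V × ℤ)) : wval L (0 : V) = 0 := by
  induction L with
  | nil => rfl
  | cons p L ih =>
    change p.1 (wval L 0) = 0
    rw [ih, map_zero]

/-- The degree of a word. -/
def wdeg (L : List (Module.End k V × ℤ)) : ℤ := (L.map Prod.snd).sum

/-- Words of homogeneous elements. -/
def Good (L : List (Module.End k V × ℤ)) : Prop :=
  ∀ p ∈ L, p.1 ∈ 𝔥 ∧ H * p.1 - p.1 * H = (p.2 : k) • p.1

variable {𝔥 H}

theorem Good.wt {L : List (Module.End k V × ℤ)} (hL : Good 𝔥 H L) {a : V} (ha : H a = a) :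
    H (wval L a) = ((1 + wdeg L : ℤ) : k) • wval L a := by
  induction L with
  | nil =>
    change H a = ((1 + 0 : ℤ) : k) • a
    rw [ha, add_zero, Int.cast_one, one_smul]
  | cons p L ih =>
    have h1 := ih (fun q hq => hL q (List.mem_cons_of_mem _ hq))
    have h2 := (hL p (List.mem_cons_self)).2
    have h3 := LinearMap.congr_fun h2 (wval L a)
    rw [LinearMap.sub_apply, Module.End.mul_apply, Module.End.mul_apply, h1, map_smul,
      LinearMap.smul_apply, sub_eq_iff_eq_add] at h3
    change H (p.1 (wval L a)) = ((1 + (p.2 + wdeg L) : ℤ) : k) • p.1 (wval L a)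
    rw [h3, ← add_smul]
    congr 1
    push_cast
    ring

theorem zero_of_wt (hH : H * H * H = H) {v : V} {n : ℤ} (hv : H v = (n : k) • v)
    (h1 : n ≠ -1) (h2 : n ≠ 0) (h3 : n ≠ 1) : v = 0 := by
  have h4 := LinearMap.congr_fun hH v
  rw [Module.End.mul_apply, Module.End.mul_apply, hv, map_smul, hv, map_smul, map_smul, hv,
    smul_smul, smul_smul, ← sub_eq_zero, ← sub_smul] at h4
  refine (smul_eq_zero.1 h4).resolve_left ?_
  have h5 : ((n : k) * n * n - n) = (((n - 1) * n * (n + 1) : ℤ) : k) := by
    push_cast
    ring
  have h6 : (n : k) * (n * n) - n = (((n - 1) * n * (n + 1) : ℤ) : k) := by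
    push_cast
    ring
  first
    | rw [h5]
    | rw [h6]
  intro h7
  have h8 : (n - 1) * n * (n + 1) = 0 := by exact_mod_cast h7
  rcases mul_eq_zero.1 h8 with h9 | h9
  · rcases mul_eq_zero.1 h9 with h10 | h10
    · omega
    · exact h2 h10
  · omega

theorem wval_pos (hH : H * H * H = H) {a : V} (ha : H a = a) {p : Module.End k V × ℤ}
    (hp : H * p.1 - p.1 * H = (p.2 : k) • p.1) (hpos : 0 < p.2) : p.1 a = 0 := by
  have h3 := LinearMap.congr_fun hp a
  rw [LinearMap.sub_apply, Module.End.mul_apply, Module.End.mul_apply, ha,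
    LinearMap.smul_apply, sub_eq_iff_eq_add] at h3
  refine zero_of_wt hH (n := p.2 + 1) ?_ (by omega) (by omega) (by omega)
  rw [h3]
  push_cast
  rw [add_smul, one_smul]

/-- Words of degree zero map `a` to a multiple of `a`. -/
theorem wval_mem (hbr : ∀ X ∈ 𝔥, ∀ Y ∈ 𝔥, X * Y - Y * X ∈ 𝔥) (hH : H * H * H = H) {a : V}
    (ha : H a = a) (h0 : ∀ X ∈ 𝔥, H * X - X * H = 0 → X a ∈ Submodule.span k {a}) (n : ℕ) :
    ∀ L : List (Module.End k V × ℤ), Good 𝔥 H L → L.length = n → wdeg L = 0 →
      wval L a ∈ Submodule.span k {a} := by
  induction n using Nat.strong_induction_on with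
  | _ n ih =>
    have inner : ∀ L2 L1 : List (Module.End k V × ℤ), ∀ p : Module.End k V × ℤ,
        Good 𝔥 H (L1 ++ p :: L2) → (L1 ++ p :: L2).length = n → wdeg (L1 ++ p :: L2) = 0 →
        0 < p.2 → wval (L1 ++ p :: L2) a ∈ Submodule.span k {a} := by
      intro L2
      induction L2 with
      | nil =>
        intro L1 p hgood _ _ hp
        rw [wval_append]
        change wval L1 (p.1 a) ∈ _
        rw [wval_pos hH ha (hgood p (by simp)).2 hp, wval_zero]
        exact Submodule.zero_mem _
      | cons q L2 ih2 =>
        intro L1 p hgood hlen hdeg hp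
        have hp1 := hgood p (by simp)
        have hq1 := hgood q (by simp)
        let r : Module.End k V × ℤ := (p.1 * q.1 - q.1 * p.1, p.2 + q.2)
        have h1 : wval (L1 ++ p :: q :: L2) a =
            wval ((L1 ++ [q]) ++ p :: L2) a + wval (L1 ++ r :: L2) a := by
          rw [wval_append, wval_append, wval_append L1 (r :: L2), wval_append L1 [q], ← wval_add]
          congr 1
          change p.1 (q.1 (wval L2 a)) = q.1 (p.1 (wval L2 a)) +
            (p.1 * q.1 - q.1 * p.1) (wval L2 a)
          rw [LinearMap.sub_apply, Module.End.mul_apply, Module.End.mul_apply]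
          abel
        rw [h1]
        apply Submodule.add_mem
        · refine ih2 (L1 ++ [q]) p ?_ ?_ ?_ hp
          · intro x hx
            apply hgood x
            simp only [List.mem_append, List.mem_cons, List.not_mem_nil, or_false] at hx ⊢
            tauto
          · rw [← hlen]
            simp only [List.length_append, List.length_cons, List.length_nil]
            omega
          · rw [← hdeg]
            unfold wdeg
            simp only [List.map_append, List.map_cons, List.map_nil, List.sum_append,
              List.sum_cons, List.sum_nil]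
            ring
        · refine ih (n - 1) ?_ (L1 ++ r :: L2) ?_ ?_ ?_
          · rw [← hlen]
            simp only [List.length_append, List.length_cons]
            omega
          · intro x hx
            simp only [List.mem_append, List.mem_cons] at hx
            rcases hx with hx | hx | hx
            · exact hgood x (by simp [hx])
            · rw [hx]
              refine ⟨hbr _ hp1.1 _ hq1.1, ?_⟩
              change H * (p.1 * q.1 - q.1 * p.1) - (p.1 * q.1 - q.1 * p.1) * H =
                ((p.2 + q.2 : ℤ) : k) • (p.1 * q.1 - q.1 * p.1)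
              have e1 : H * (p.1 * q.1 - q.1 * p.1) - (p.1 * q.1 - q.1 * p.1) * H =
                  (H * p.1 - p.1 * H) * q.1 + p.1 * (H * q.1 - q.1 * H) -
                  ((H * q.1 - q.1 * H) * p.1 + q.1 * (H * p.1 - p.1 * H)) := by noncomm_ring
              rw [e1, hp1.2, hq1.2]
              simp only [smul_mul_assoc, mul_smul_comm]
              push_cast
              module
            · exact hgood x (by simp [hx])
          · rw [← hlen]
            simp only [List.length_append, List.length_cons]
            omega
          · rw [← hdeg]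
            unfold wdeg
            simp only [List.map_append, List.map_cons, List.sum_append, List.sum_cons]
            change _ + ((p.2 + q.2) + _) = _
            ring
    intro L hL hlen hdeg
    by_cases hex : ∃ p ∈ L, 0 < p.2
    · obtain ⟨p, hpL, hp⟩ := hex
      obtain ⟨L1, L2, rfl⟩ := List.append_of_mem hpL
      exact inner L2 L1 p hL hlen hdeg hp
    · push Not at hex
      -- all degrees vanish
      have hall : ∀ L : List (Module.End k V × ℤ), (∀ p ∈ L, p.2 ≤ 0) → wdeg L = 0 →
          ∀ p ∈ L, p.2 = 0 := by
        intro L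
        induction L with
        | nil => intro _ _ p hp; simp at hp
        | cons q L ihL =>
          intro hle hsum
          have hs : q.2 + wdeg L = 0 := hsum
          have hle2 : ∀ L : List (Module.End k V × ℤ), (∀ p ∈ L, p.2 ≤ 0) → wdeg L ≤ 0 := by
            intro L
            induction L with
            | nil => intro _; exact le_refl _
            | cons q L ihL =>
              intro h
              have h1 := ihL (fun p hp => h p (List.mem_cons_of_mem _ hp))
              have h2 := h q List.mem_cons_self
              change q.2 + wdeg L ≤ 0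
              omega
          have h1 := hle2 L (fun p hp => hle p (List.mem_cons_of_mem _ hp))
          have h2 := hle q List.mem_cons_self
          intro p hp
          rcases List.mem_cons.1 hp with h | h
          · rw [h]
            omega
          · exact ihL (fun p hp => hle p (List.mem_cons_of_mem _ hp)) (by omega) p h
      have h1 := hall L hex hdeg
      clear hex hdeg hlen
      induction L with
      | nil => exact Submodule.mem_span_singleton_self a
      | cons q L ihL =>
        have h2 := ihL (fun p hp => hL p (List.mem_cons_of_mem _ hp))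
          (fun p hp => h1 p (List.mem_cons_of_mem _ hp))
        obtain ⟨c, hc⟩ := Submodule.mem_span_singleton.1 h2
        change q.1 (wval L a) ∈ _
        rw [← hc, map_smul]
        refine Submodule.smul_mem _ _ (h0 q.1 (hL q List.mem_cons_self).1 ?_)
        rw [(hL q List.mem_cons_self).2, h1 q List.mem_cons_self, Int.cast_zero, zero_smul]

/-- Decomposition into homogeneous components. -/
theorem exists_components (hbr : ∀ X ∈ 𝔥, ∀ Y ∈ 𝔥, X * Y - Y * X ∈ 𝔥) (hHm : H ∈ 𝔥)
    (hH : H * H * H = H) {x : Module.End k V} (hx : x ∈ 𝔥) :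
    ∃ L : List (Module.End k V × ℤ), Good 𝔥 H L ∧ ∀ v, x v = (L.map fun p => p.1 v).sum := by
  obtain ⟨m1, hm1⟩ : ∃ m, m = H * x - x * H := ⟨_, rfl⟩
  obtain ⟨m2, hm2⟩ : ∃ m, m = H * m1 - m1 * H := ⟨_, rfl⟩
  obtain ⟨m3, hm3⟩ : ∃ m, m = H * m2 - m2 * H := ⟨_, rfl⟩
  obtain ⟨m4, hm4⟩ : ∃ m, m = H * m3 - m3 * H := ⟨_, rfl⟩
  have e1 : m1 ∈ 𝔥 := by rw [hm1]; exact hbr _ hHm _ hx
  have e2 : m2 ∈ 𝔥 := by rw [hm2]; exact hbr _ hHm _ e1
  have e3 : m3 ∈ 𝔥 := by rw [hm3]; exact hbr _ hHm _ e2
  have e4 : m4 ∈ 𝔥 := by rw [hm4]; exact hbr _ hHm _ e3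
  have e5 : H * m4 - m4 * H = (5 : k) • m3 - (4 : k) • m1 := by
    have g3 : m3 = m1 - (3 : k) • (H * H * x * H) + (3 : k) • (H * x * (H * H)) := by
      rw [hm3, hm2, hm1]
      have : H * (H * (H * x - x * H) - (H * x - x * H) * H) -
          (H * (H * x - x * H) - (H * x - x * H) * H) * H =
          (H * H * H) * x - x * (H * H * H) - (3 : ℤ) • (H * H * x * H) +
            (3 : ℤ) • (H * x * (H * H)) := by noncomm_ring
      rw [this, hH]
      module
    have g5 : H * m4 - m4 * H = m1 - (15 : k) • (H * H * x * H) + (15 : k) • (H * x * (H * H)) := by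
      rw [hm4, g3, hm1]
      simp only [mul_sub, sub_mul, mul_add, add_mul, mul_smul_comm, smul_mul_assoc]
      have t1 : H * (H * (H * x)) = H * x := by
        rw [← mul_assoc, ← mul_assoc, hH]
      have t2 : x * H * H * H = x * H := by
        rw [mul_assoc, mul_assoc, ← mul_assoc H H H, hH]
      have t3 : H * (H * (H * H * x * H)) = H * H * x * H := by
        have : H * (H * (H * H * x * H)) = (H * H * H) * (H * x * H) := by noncomm_ring
        rw [this, hH]
        noncomm_ring
      have t4 : H * (H * (H * x * (H * H))) = H * x * (H * H) := by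
        have : H * (H * (H * x * (H * H))) = (H * H * H) * (x * (H * H)) := by noncomm_ring
        rw [this, hH]
        noncomm_ring
      have t5 : H * (H * H * x * H * H) = H * x * (H * H) := by
        have : H * (H * H * x * H * H) = (H * H * H) * (x * (H * H)) := by noncomm_ring
        rw [this, hH]
        noncomm_ring
      have t6 : H * (H * x * (H * H) * H) = H * H * x * H := by
        have : H * (H * x * (H * H) * H) = H * H * x * (H * H * H) := by noncomm_ring
        rw [this, hH]
      have t7 : H * (H * H * x * H) * H = H * x * (H * H) := by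
        have : H * (H * H * x * H) * H = (H * H * H) * (x * (H * H)) := by noncomm_ring
        rw [this, hH]
        noncomm_ring
      have t8 : H * (H * x * (H * H)) * H = H * H * x * H := by
        have : H * (H * x * (H * H)) * H = H * H * x * (H * H * H) := by noncomm_ring
        rw [this, hH]
      have t9 : H * H * x * H * H * H = H * H * x * H := by
        have : H * H * x * H * H * H = H * H * x * (H * H * H) := by noncomm_ring
        rw [this, hH]
      have t10 : H * x * (H * H) * H * H = H * x * (H * H) := by
        have : H * x * (H * H) * H * H = H * x * (H * H * H) * H := by noncomm_ring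
        rw [this, hH]
        noncomm_ring
      simp only [← mul_assoc] at *
      simp only [t1, t2, t3, t4, t5, t6, t7, t8, t9, t10]
      module
    rw [g5, g3]
    module
  have hgood : ∀ (d : ℤ) (y : Module.End k V), y ∈ 𝔥 → H * y - y * H = (d : k) • y →
      ((y, d).1 ∈ 𝔥 ∧ H * (y, d).1 - (y, d).1 * H = (((y, d).2 : ℤ) : k) • (y, d).1) :=
    fun d y h1 h2 => ⟨h1, h2⟩
  refine ⟨[((1 / 24 : k) • (m4 + (2 : k) • m3 - m2 - (2 : k) • m1), 2),
    ((-1 / 6 : k) • (m4 + m3 - (4 : k) • m2 - (4 : k) • m1), 1),
    ((1 / 4 : k) • (m4 - (5 : k) • m2 + (4 : k) • x), 0),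
    ((-1 / 6 : k) • (m4 - m3 - (4 : k) • m2 + (4 : k) • m1), -1),
    ((1 / 24 : k) • (m4 - (2 : k) • m3 - m2 + (2 : k) • m1), -2)], ?_, ?_⟩
  · have hD : ∀ y z : Module.End k V, ∀ c : k, H * (y + c • z) - (y + c • z) * H =
        (H * y - y * H) + c • (H * z - z * H) := by
      intro y z c
      rw [mul_add, add_mul, mul_smul_comm, smul_mul_assoc, smul_sub]
      abel
    intro p hp
    simp only [List.mem_cons, List.not_mem_nil, or_false] at hp
    have a1 : H * m1 = m2 + m1 * H := by rw [hm2]; abel
    have a2 : H * m2 = m3 + m2 * H := by rw [hm3]; abel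
    have a3 : H * m3 = m4 + m3 * H := by rw [hm4]; abel
    have a0 : H * x = m1 + x * H := by rw [hm1]; abel
    have a4 : H * m4 = (5 : k) • m3 - (4 : k) • m1 + m4 * H := by rw [← e5]; abel
    rcases hp with rfl | rfl | rfl | rfl | rfl
    all_goals
      refine ⟨?_, ?_⟩
      · first
          | exact Submodule.smul_mem _ _ (Submodule.sub_mem _ (Submodule.sub_mem _
              (Submodule.add_mem _ e4 (Submodule.smul_mem _ _ e3)) e2)
              (Submodule.smul_mem _ _ e1))
          | exact Submodule.smul_mem _ _ (Submodule.sub_mem _ (Submodule.sub_mem _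
              (Submodule.add_mem _ e4 e3) (Submodule.smul_mem _ _ e2))
              (Submodule.smul_mem _ _ e1))
          | exact Submodule.smul_mem _ _ (Submodule.add_mem _ (Submodule.sub_mem _ e4
              (Submodule.smul_mem _ _ e2)) (Submodule.smul_mem _ _ hx))
          | exact Submodule.smul_mem _ _ (Submodule.add_mem _ (Submodule.sub_mem _
              (Submodule.sub_mem _ e4 e3) (Submodule.smul_mem _ _ e2))
              (Submodule.smul_mem _ _ e1))
          | exact Submodule.smul_mem _ _ (Submodule.add_mem _ (Submodule.sub_mem _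
              (Submodule.sub_mem _ e4 (Submodule.smul_mem _ _ e3)) e2)
              (Submodule.smul_mem _ _ e1))
      · simp only [mul_add, mul_sub, add_mul, sub_mul, mul_smul_comm, smul_mul_assoc, a0, a1, a2,
          a3, a4]
        push_cast
        module
  · intro v
    simp only [List.map_cons, List.map_nil, List.sum_cons, List.sum_nil, LinearMap.smul_apply,
      LinearMap.add_apply, LinearMap.sub_apply]
    module

/-- The component of weight one of the subspace generated by `a` is spanned by `a`. -/
theorem gen_weight_one (hbr : ∀ X ∈ 𝔥, ∀ Y ∈ 𝔥, X * Y - Y * X ∈ 𝔥) (hHm : H ∈ 𝔥)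
    (hH : H * H * H = H) {a : V}
    (ha : H a = a) (h0 : ∀ X ∈ 𝔥, H * X - X * H = 0 → X a ∈ Submodule.span k {a}) {v : V}
    (hv : v ∈ gen 𝔥 a) : H (H v) + H v ∈ Submodule.span k {a} := by
  let M : Submodule k V := Submodule.span k {u | ∃ L, Good 𝔥 H L ∧ wval L a = u}
  have hM : gen 𝔥 a ≤ M := by
    refine gen_le (Submodule.subset_span ⟨[], fun p hp => by simp at hp, rfl⟩) ?_
    intro X hX u hu
    induction hu using Submodule.span_induction with
    | mem u hu =>
      obtain ⟨L, hL, rfl⟩ := hu
      obtain ⟨L', hL', hX'⟩ := exists_components hbr hHm hH hX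
      rw [hX']
      apply list_sum_mem
      intro y hy
      obtain ⟨p, hp, rfl⟩ := List.mem_map.1 hy
      refine Submodule.subset_span ⟨p :: L, ?_, rfl⟩
      intro q hq
      rcases List.mem_cons.1 hq with h | h
      · rw [h]
        exact hL' p hp
      · exact hL q h
    | zero => rw [map_zero]; exact Submodule.zero_mem _
    | add a b _ _ ha hb => rw [map_add]; exact Submodule.add_mem _ ha hb
    | smul c a _ ha => rw [map_smul]; exact Submodule.smul_mem _ _ ha
  have h1 := hM hv
  clear hv
  induction h1 using Submodule.span_induction with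
  | mem u hu =>
    obtain ⟨L, hL, rfl⟩ := hu
    have h2 := hL.wt ha
    by_cases hd : wdeg L = 0
    · have h3 := wval_mem hbr hH ha h0 L.length L hL rfl hd
      rw [h2, map_smul, h2, smul_smul, ← add_smul]
      exact Submodule.smul_mem _ _ h3
    · by_cases hd1 : wdeg L = -1
      · rw [h2, hd1, map_smul, h2, hd1]
        simp
      · by_cases hd2 : wdeg L = -2
        · rw [h2, hd2, map_smul, h2, hd2]
          norm_num
        · rw [zero_of_wt hH h2 (by omega) (by omega) (by omega)]
          simp
  | zero => simp
  | add a b _ _ ha hb =>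
    rw [map_add, map_add, add_add_add_comm]
    exact Submodule.add_mem _ ha hb
  | smul c a _ ha =>
    rw [map_smul, map_smul, ← smul_add]
    exact Submodule.smul_mem _ _ ha

end

end Pool.Agent.W528.Tor
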