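import Mathlib
import Pool.Agent.W528.Tor.Core2
import Pool.Agent.W528.Tor.Words

/-!
# The Lie algebra attached to a square-zero element of rank at most two
-/

set_option linter.unusedSectionVars false
set_option linter.deprecated false

namespace Pool.Agent.W528.Tor

open Module Pool.Agent.H204R3.SP Pool.Agent.W529.Ta

noncomputable section

variable {k : Type*} [Field k] [CharZero k] {V : Type*} [AddCommGroup V] [Module k V]
  (ω : V →ₗ[k] V →ₗ[k] k)

section config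

variable [IsAlgClosed k] (𝔥 : Submodule k (Module.End k V))
  (hbr : ∀ X ∈ 𝔥, ∀ Y ∈ 𝔥, X * Y - Y * X ∈ 𝔥)
  (hsp : ∀ X ∈ 𝔥, ∀ u w, ω (X u) w + ω u (X w) = 0)
  (hno : ∀ d, SS ω d d ∈ 𝔥 → d = 0)

include hbr hsp hno in
/-- The subspace generated by `a` is orthogonal to `b₁`. -/
theorem config (halt : ∀ v, ω v v = 0) {a b a₁ b₁ : V} (ha : a ≠ 0) (hb : b ≠ 0)
    (hab : ω a b = 0) (hab₁ : ω a₁ b₁ = 0)
    (h : SS ω a b ∈ 𝔥) (h₁ : SS ω a₁ b₁ ∈ 𝔥) (hp : ω a a₁ ≠ 0) (hq : ω b b₁ ≠ 0)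
    (h1 : ω a b₁ = 0) (h2 : ω b a₁ = 0) {v : V} (hv : v ∈ gen 𝔥 a) : ω b₁ v = 0 := by
  have hanti := alt_anti halt
  have hba : ω b a = 0 := by rw [hanti, hab, neg_zero]
  have h3 : ω b₁ a = 0 := by rw [hanti, h1, neg_zero]
  have h4 : ω a₁ b = 0 := by rw [hanti, h2, neg_zero]
  have hba₁ : ω b₁ a₁ = 0 := by rw [hanti, hab₁, neg_zero]
  obtain ⟨H, hHd⟩ : ∃ H, H = (-(ω a a₁)⁻¹) • SS ω a a₁ + (-(ω b b₁)⁻¹) • SS ω b b₁ := ⟨_, rfl⟩
  have hHv : ∀ v, H v = (-(ω a a₁)⁻¹ * ω a v) • a₁ + (-(ω a a₁)⁻¹ * ω a₁ v) • a +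
      (-(ω b b₁)⁻¹ * ω b v) • b₁ + (-(ω b b₁)⁻¹ * ω b₁ v) • b := by
    intro v
    rw [hHd]
    simp only [LinearMap.add_apply, LinearMap.smul_apply, SS_apply]
    module
  have hHm : H ∈ 𝔥 := by
    have g1 := hbr _ h _ h₁
    rw [SS_bracket ω halt, h2, h1, zero_smul, zero_smul, zero_add, add_zero] at g1
    have g2 := Submodule.smul_mem 𝔥 (-((ω a a₁)⁻¹ * (ω b b₁)⁻¹)) g1
    have g3 : (-((ω a a₁)⁻¹ * (ω b b₁)⁻¹)) • (ω b b₁ • SS ω a a₁ + ω a a₁ • SS ω b b₁) = H := by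
      rw [hHd, smul_add, smul_smul, smul_smul]
      congr 2
      · field_simp
      · field_simp
    rw [g3] at g2
    exact g2
  have ea : H a = a := by
    rw [hHv, halt, hanti a₁ a, hba, h3]
    simp only [mul_zero, zero_smul, zero_add, add_zero]
    rw [neg_mul_neg, inv_mul_cancel₀ hp, one_smul]
  have eb : H b = b := by
    rw [hHv, hab, h4, halt, hanti b₁ b]
    simp only [mul_zero, zero_smul, zero_add, add_zero]
    rw [neg_mul_neg, inv_mul_cancel₀ hq, one_smul]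
  have ea₁ : H a₁ = -a₁ := by
    rw [hHv, halt, h2, hba₁]
    simp only [mul_zero, zero_smul, zero_add, add_zero]
    rw [neg_mul, inv_mul_cancel₀ hp, neg_one_smul]
  have eb₁ : H b₁ = -b₁ := by
    rw [hHv, halt, h1, hab₁]
    simp only [mul_zero, zero_smul, zero_add, add_zero]
    rw [neg_mul, inv_mul_cancel₀ hq, neg_one_smul]
  have hH : H * H * H = H := by
    refine LinearMap.ext fun v => ?_
    rw [Module.End.mul_apply, Module.End.mul_apply]
    conv_lhs => rw [hHv v]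
    simp only [map_add, map_smul, ea, eb, ea₁, eb₁, smul_neg, map_neg, neg_neg]
    rw [hHv v]
  have hb₁ : ∀ X ∈ 𝔥, ω b₁ (X a) = 0 := by
    intro X hX
    have g1 := star ω 𝔥 hbr hsp hno halt ha hb hab h (hbr _ h₁ _ hX)
    have g2 := hsp X hX a b₁
    rw [hanti (X a) b₁] at g2
    rw [LinearMap.sub_apply, Module.End.mul_apply, Module.End.mul_apply, SS_apply ω a₁ b₁ a,
      hanti a₁ a, h3, zero_smul, add_zero, map_smul, map_sub, map_smul, SS_apply, map_add, map_smul,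
      map_smul, h1, smul_zero, zero_add, smul_eq_mul, smul_eq_mul] at g1
    have g3 : (2 * ω a a₁) * ω b₁ (X a) = 0 := by linear_combination g1 - (ω a a₁) * g2
    exact (mul_eq_zero.1 g3).resolve_left (mul_ne_zero two_ne_zero hp)
  have h0 : ∀ X ∈ 𝔥, H * X - X * H = 0 → X a ∈ Submodule.span k {a} := by
    intro X hX hc
    have g1 := LinearMap.congr_fun hc a
    rw [LinearMap.sub_apply, Module.End.mul_apply, Module.End.mul_apply, ea,
      LinearMap.zero_apply, sub_eq_zero] at g1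
    have g2 : ω a (X a) = 0 := by
      have g3 := congrArg (ω a) g1
      rw [hHv, map_add, map_add, map_add, map_smul, map_smul, map_smul, map_smul, halt, h1, hab,
        smul_zero, smul_zero, smul_zero, add_zero, add_zero, add_zero, smul_eq_mul] at g3
      have g4 : (2 : k) * ω a (X a) = 0 := by
        have g5 : -(ω a a₁)⁻¹ * ω a (X a) * ω a a₁ = -ω a (X a) := by
          field_simp
        rw [g5] at g3
        linear_combination -g3
      exact (mul_eq_zero.1 g4).resolve_left two_ne_zero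
    have g3 : ω b (X a) = 0 := by
      have g3 := congrArg (ω b) g1
      rw [hHv, map_add, map_add, map_add, map_smul, map_smul, map_smul, map_smul, halt, h2, hba,
        smul_zero, smul_zero, smul_zero, zero_add, zero_add, add_zero, smul_eq_mul] at g3
      have g4 : (2 : k) * ω b (X a) = 0 := by
        have g5 : -(ω b b₁)⁻¹ * ω b (X a) * ω b b₁ = -ω b (X a) := by
          field_simp
        rw [g5] at g3
        linear_combination -g3
      exact (mul_eq_zero.1 g4).resolve_left two_ne_zero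
    rw [← g1, hHv, g2, g3, hb₁ X hX]
    simp only [mul_zero, zero_smul, zero_add, add_zero]
    exact Submodule.smul_mem _ _ (Submodule.mem_span_singleton_self a)
  have h5 := gen_weight_one hbr hHm hH ea h0 hv
  obtain ⟨c, hc⟩ := Submodule.mem_span_singleton.1 h5
  have h6 := congrArg (ω b₁) hc
  rw [map_smul, h3, smul_zero, map_add] at h6
  have h7 : ∀ u, ω b₁ (H u) = ω b₁ u := by
    intro u
    have h8 := hsp H hHm b₁ u
    rw [eb₁, map_neg, LinearMap.neg_apply] at h8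
    linear_combination h8
  rw [h7, h7, ← two_mul] at h6
  exact (mul_eq_zero.1 h6.symm).resolve_left two_ne_zero

include hbr hsp hno in
/-- The configuration for two elements which are not orthogonal. -/
theorem pair_config (halt : ∀ v, ω v v = 0) {a b a' b' : V} (ha : a ≠ 0) (hb : b ≠ 0)
    (hab : ω a b = 0) (h : SS ω a b ∈ 𝔥) (h' : SS ω a' b' ∈ 𝔥)
    (hl : ω a (SS ω a' b' b) ≠ 0) :
    (ω a a' ≠ 0 ∧ ω b b' ≠ 0 ∧ ω a b' = 0 ∧ ω b a' = 0) ∨
    (ω a b' ≠ 0 ∧ ω b a' ≠ 0 ∧ ω a a' = 0 ∧ ω b b' = 0) := by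
  have hanti := alt_anti halt
  have hba : ω b a = 0 := by rw [hanti, hab, neg_zero]
  have g1 := star ω 𝔥 hbr hsp hno halt ha hb hab h h'
  have g2 := star ω 𝔥 hbr hsp hno halt hb ha hba (by rw [SS_comm]; exact h) h'
  rw [SS_apply, map_add, map_smul, map_smul, smul_eq_mul, smul_eq_mul, hanti a' a,
    hanti b' a] at g1
  rw [SS_apply, map_add, map_smul, map_smul, smul_eq_mul, smul_eq_mul, hanti a' b,
    hanti b' b] at g2
  rw [SS_apply, map_add, map_smul, map_smul, smul_eq_mul, smul_eq_mul, hanti a' b,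
    hanti b' b] at hl
  have g3 : ω a a' * ω a b' = 0 := by
    have g4 : (2 : k) * (ω a a' * ω a b') = 0 := by linear_combination -g1
    exact (mul_eq_zero.1 g4).resolve_left two_ne_zero
  have g4 : ω b a' * ω b b' = 0 := by
    have g4 : (2 : k) * (ω b a' * ω b b') = 0 := by linear_combination -g2
    exact (mul_eq_zero.1 g4).resolve_left two_ne_zero
  by_cases hc : ω a a' = 0
  · refine Or.inr ?_
    rw [hc, mul_zero, add_zero] at hl
    have g5 : ω b a' ≠ 0 := fun h0 => hl (by rw [h0, neg_zero, zero_mul])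
    have g6 : ω a b' ≠ 0 := fun h0 => hl (by rw [h0, mul_zero])
    exact ⟨g6, g5, hc, (mul_eq_zero.1 g4).resolve_left g5⟩
  · refine Or.inl ?_
    have g5 := (mul_eq_zero.1 g3).resolve_left hc
    rw [g5, mul_zero, zero_add] at hl
    have g6 : ω b b' ≠ 0 := fun h0 => hl (by rw [h0, neg_zero, zero_mul])
    exact ⟨hc, g6, g5, (mul_eq_zero.1 g4).resolve_right g6⟩

/-- The generated subspaces in a configuration agree. -/
theorem gen_eq (halt : ∀ v, ω v v = 0) {a b a' b' : V}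
    (h : SS ω a b ∈ 𝔥) (h' : SS ω a' b' ∈ 𝔥)
    (hp : ω a a' ≠ 0) (hq : ω b b' ≠ 0) (h1 : ω a b' = 0) (h2 : ω b a' = 0) :
    gen 𝔥 a' = gen 𝔥 b ∧ gen 𝔥 b' = gen 𝔥 a := by
  have hanti := alt_anti halt
  have h3 : ω b' a = 0 := by rw [hanti, h1, neg_zero]
  have h4 : ω a' b = 0 := by rw [hanti, h2, neg_zero]
  have key : ∀ x y : V, x ∈ gen 𝔥 y → gen 𝔥 x ≤ gen 𝔥 y := fun x y hxy =>
    gen_le hxy (fun X hX u hu => gen_stable hX hu)
  have e1 : b ∈ gen 𝔥 a' := by
    have g1 := gen_stable (a := a') h (mem_gen_self 𝔥 a')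
    rw [SS_apply, h2, zero_smul, add_zero] at g1
    exact (Submodule.smul_mem_iff _ hp).1 g1
  have e2 : a' ∈ gen 𝔥 b := by
    have g1 := gen_stable (a := b) h' (mem_gen_self 𝔥 b)
    rw [SS_apply, h4, zero_smul, zero_add] at g1
    exact (Submodule.smul_mem_iff _ (by rw [hanti]; exact neg_ne_zero.2 hq)).1 g1
  have e3 : a ∈ gen 𝔥 b' := by
    have g1 := gen_stable (a := b') h (mem_gen_self 𝔥 b')
    rw [SS_apply, h1, zero_smul, zero_add] at g1
    exact (Submodule.smul_mem_iff _ hq).1 g1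
  have e4 : b' ∈ gen 𝔥 a := by
    have g1 := gen_stable (a := a) h' (mem_gen_self 𝔥 a)
    rw [SS_apply, h3, zero_smul, add_zero] at g1
    exact (Submodule.smul_mem_iff _ (by rw [hanti]; exact neg_ne_zero.2 hp)).1 g1
  exact ⟨le_antisymm (key _ _ e2) (key _ _ e1), le_antisymm (key _ _ e4) (key _ _ e3)⟩

end config

variable {Γ : Type*} [Group Γ] (ρ : Representation k Γ V) (χ : Γ →* k)

theorem gen_map (𝔥 : Submodule k (Module.End k V))
    (hconj : ∀ s : Γ, ∀ X ∈ 𝔥, ρ s * X * ρ s⁻¹ ∈ 𝔥) (s : Γ) (v : V) :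
    (gen 𝔥 v).map (ρ s) = gen 𝔥 (ρ s v) := by
  apply le_antisymm
  · rw [Submodule.map_le_iff_le_comap]
    refine gen_le (mem_gen_self 𝔥 _) ?_
    intro X hX u hu
    rw [Submodule.mem_comap] at hu ⊢
    have h1 := gen_stable (hconj s X hX) hu
    rwa [Module.End.mul_apply, Module.End.mul_apply, rho_inv] at h1
  · refine gen_le (Submodule.mem_map_of_mem (mem_gen_self 𝔥 v)) ?_
    rintro X hX _ ⟨u, hu, rfl⟩
    have h1 := hconj s⁻¹ X hX
    rw [inv_inv] at h1
    refine ⟨(ρ s⁻¹ * X * ρ s) u, gen_stable h1 hu, ?_⟩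
    rw [Module.End.mul_apply, Module.End.mul_apply, rho_inv']

/-- **Core lemma.** A Lie algebra of symplectic endomorphisms, stable under conjugation by a group
all of whose subgroups of finite index act irreducibly, which contains `N = ρ t - 1`, where `N` has
square zero and rank one or two, is the symplectic Lie algebra. -/
theorem core [FiniteDimensional k V] [IsAlgClosed k] (halt : ∀ v, ω v v = 0)
    (hnd : ∀ u, (∀ v, ω v u = 0) → u = 0)
    (hωρ : ∀ s u v, ω (ρ s u) (ρ s v) = χ s * ω u v)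
    (hirr : ∀ Δ : Subgroup Γ, Δ.FiniteIndex → ∀ U : Submodule k V,
      (∀ s ∈ Δ, ∀ u ∈ U, ρ s u ∈ U) → U = ⊥ ∨ U = ⊤)
    (𝔥 : Submodule k (Module.End k V))
    (hbr : ∀ X ∈ 𝔥, ∀ Y ∈ 𝔥, X * Y - Y * X ∈ 𝔥)
    (hconj : ∀ s : Γ, ∀ X ∈ 𝔥, ρ s * X * ρ s⁻¹ ∈ 𝔥)
    (hsp : ∀ X ∈ 𝔥, ∀ u w, ω (X u) w + ω u (X w) = 0) {a b : V} (hab : ω a b = 0)
    (hN : SS ω a b ≠ 0) (hmem : SS ω a b ∈ 𝔥) {t : Γ} (ht : ρ t = 1 + SS ω a b) :
    ∀ u v, SS ω u v ∈ 𝔥 := by
  classical
  have hconj' : ∀ (s : Γ) (a b : V), SS ω a b ∈ 𝔥 → SS ω (ρ s a) (ρ s b) ∈ 𝔥 := by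
    intro s a b h
    rw [SS_rho ρ χ ω hωρ]
    exact Submodule.smul_mem _ _ (hconj s _ h)
  by_cases hno : ∀ d, SS ω d d ∈ 𝔥 → d = 0
  swap
  · push Not at hno
    obtain ⟨δ, hδ, hδ0⟩ := hno
    exact SS_all ρ ω 𝔥 halt hnd hbr hconj' hirr hδ0 hδ
  exfalso
  have hanti := alt_anti halt
  have ha : a ≠ 0 := by
    rintro rfl
    apply hN
    rw [SS_comm, SS_zero_right]
  have hb : b ≠ 0 := by
    rintro rfl
    apply hN
    rw [SS_zero_right]
  have hba : ω b a = 0 := by rw [hanti, hab, neg_zero]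
  have hinj : ∀ s : Γ, ∀ u : V, u ≠ 0 → ρ s u ≠ 0 := by
    intro s u hu h
    apply hu
    rw [← rho_inv ρ s u, h, map_zero]
  have hle : conjSpan ρ ω a b ≤ 𝔥 := conjSpan_le ρ χ ω a b hωρ 𝔥 hconj hmem
  obtain ⟨s₀, hs₀⟩ := exists_partner ρ χ ω a b halt hnd hωρ
    (fun U hU => hirr ⊤ inferInstance U fun s _ => hU s) hab ha hb ht
    (fun d hd => hno d (hle hd)) (fun X hX => hsp X (hle hX))
  -- the sets of generated subspaces
  let P : Γ → Set (Submodule k V) := fun s => {gen 𝔥 (ρ s a), gen 𝔥 (ρ s b)}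
  have hPmul : ∀ s t : Γ, P (s * t) = (fun U : Submodule k V => U.map (ρ s)) '' P t := by
    intro s t
    change ({gen 𝔥 (ρ (s * t) a), gen 𝔥 (ρ (s * t) b)} : Set (Submodule k V)) =
      (fun U : Submodule k V => U.map (ρ s)) '' {gen 𝔥 (ρ t a), gen 𝔥 (ρ t b)}
    rw [Set.image_pair, gen_map ρ 𝔥 hconj, gen_map ρ 𝔥 hconj, rho_mul_apply, rho_mul_apply]
  have hP1 : P 1 = {gen 𝔥 a, gen 𝔥 b} := by
    change ({gen 𝔥 (ρ 1 a), gen 𝔥 (ρ 1 b)} : Set (Submodule k V)) = _
    rw [map_one, Module.End.one_apply, Module.End.one_apply]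
  have hPid : ∀ S : Set (Submodule k V), (fun U : Submodule k V => U.map (ρ 1)) '' S = S := by
    intro S
    have h1 : (fun U : Submodule k V => U.map (ρ 1)) = id := by
      funext U
      rw [map_one]
      exact Submodule.map_id U
    rw [h1, Set.image_id]
  let H1 : Subgroup Γ :=
    { carrier := {s | P s = P 1}
      one_mem' := rfl
      mul_mem' := by
        intro s t (hs : P s = P 1) (ht : P t = P 1)
        change P (s * t) = P 1
        rw [hPmul, ht, ← hPmul, mul_one, hs]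
      inv_mem' := by
        intro s (hs : P s = P 1)
        change P s⁻¹ = P 1
        have h1 : P (s⁻¹ * s) = P 1 := by rw [inv_mul_cancel]
        rw [hPmul, hs, ← hPmul, mul_one] at h1
        exact h1 }
  have hH1 : ∀ s : Γ, s ∈ H1 ↔ P s = P 1 := fun s => Iff.rfl
  have hlam : ∀ s : Γ, ω a (SS ω (ρ s a) (ρ s b) b) ≠ 0 → s ∈ H1 := by
    intro s hs
    rw [hH1, hP1]
    change ({gen 𝔥 (ρ s a), gen 𝔥 (ρ s b)} : Set (Submodule k V)) = {gen 𝔥 a, gen 𝔥 b}
    have hs' := hconj' s _ _ hmem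
    rcases pair_config ω 𝔥 hbr hsp hno halt ha hb hab hmem hs' hs with h | h
    · obtain ⟨g1, g2⟩ := gen_eq ω 𝔥 halt hmem hs' h.1 h.2.1 h.2.2.1 h.2.2.2
      rw [g1, g2, Set.pair_comm]
    · obtain ⟨g1, g2⟩ := gen_eq ω 𝔥 halt hmem (by rw [SS_comm]; exact hs') h.1 h.2.1 h.2.2.1
        h.2.2.2
      rw [g1, g2]
  -- finite index
  have hli : LinearIndependent k (fun q : Γ ⧸ H1 => SS ω (ρ q.out a) (ρ q.out b)) := by
    rw [linearIndependent_iff']
    intro S g hg i hi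
    have h6 : ω (ρ (i.out * s₀) a) (SS ω (ρ i.out a) (ρ i.out b) (ρ (i.out * s₀) b)) ≠ 0 := by
      have h7 : SS ω (ρ i.out a) (ρ i.out b) (ρ (i.out * s₀) b) =
          χ i.out • ρ i.out (SS ω a b (ρ s₀ b)) := by
        rw [SS_rho ρ χ ω hωρ, LinearMap.smul_apply, Module.End.mul_apply, Module.End.mul_apply,
          rho_mul_apply, rho_inv]
      rw [h7, map_smul, rho_mul_apply, hωρ, ← pair_symm ω halt, smul_eq_mul]
      exact mul_ne_zero (chi_ne χ _) (mul_ne_zero (chi_ne χ _) hs₀)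
    have h7 : ∀ j ∈ S, j ≠ i →
        ω (ρ (i.out * s₀) a) (SS ω (ρ j.out a) (ρ j.out b) (ρ (i.out * s₀) b)) = 0 := by
      intro j _ hj
      by_contra hcon
      apply hj
      have h8 : SS ω (ρ j.out a) (ρ j.out b) (ρ (i.out * s₀) b) =
          χ j.out • ρ j.out (SS ω a b (ρ (j.out⁻¹ * (i.out * s₀)) b)) := by
        rw [SS_rho ρ χ ω hωρ, LinearMap.smul_apply, Module.End.mul_apply, Module.End.mul_apply,
          rho_mul_apply ρ j.out⁻¹]
      have h9 : ρ (i.out * s₀) a = ρ j.out (ρ (j.out⁻¹ * (i.out * s₀)) a) := by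
        rw [← rho_mul_apply, mul_inv_cancel_left]
      rw [h8, h9, map_smul, hωρ, ← pair_symm ω halt, smul_eq_mul] at hcon
      have h10 := hlam _ (right_ne_zero_of_mul (right_ne_zero_of_mul hcon))
      have h11 : j.out⁻¹ * i.out ∈ H1 := by
        have h12 := H1.mul_mem h10 (H1.inv_mem (hlam s₀ hs₀))
        have h13 : j.out⁻¹ * (i.out * s₀) * s₀⁻¹ = j.out⁻¹ * i.out := by group
        rwa [h13] at h12
      have h12 : (QuotientGroup.mk j.out : Γ ⧸ H1) = QuotientGroup.mk i.out :=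
        QuotientGroup.eq.2 h11
      rw [QuotientGroup.out_eq', QuotientGroup.out_eq'] at h12
      exact h12
    have h8 := congrArg (fun X : Module.End k V => ω (ρ (i.out * s₀) a) (X (ρ (i.out * s₀) b))) hg
    simp only [LinearMap.sum_apply, map_sum, LinearMap.smul_apply, map_smul, LinearMap.zero_apply,
      map_zero] at h8
    rw [Finset.sum_eq_single i] at h8
    · exact (mul_eq_zero.1 h8).resolve_right h6
    · intro j hj hji
      rw [h7 j hj hji, smul_zero]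
    · intro h
      exact absurd hi h
  have hfin : Finite (Γ ⧸ H1) := hli.finite
  -- the stabilizer of the subspace generated by `a`
  have hgm : ∀ s : Γ, (gen 𝔥 a).map (ρ s) = gen 𝔥 (ρ s a) := fun s => gen_map ρ 𝔥 hconj s a
  let Δ : Subgroup Γ :=
    { carrier := {s | (gen 𝔥 a).map (ρ s) = gen 𝔥 a}
      one_mem' := by
        change (gen 𝔥 a).map (ρ 1) = gen 𝔥 a
        rw [map_one]
        exact Submodule.map_id _
      mul_mem' := by
        intro s t (hs : (gen 𝔥 a).map (ρ s) = gen 𝔥 a) (ht : (gen 𝔥 a).map (ρ t) = gen 𝔥 a)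
        change (gen 𝔥 a).map (ρ (s * t)) = gen 𝔥 a
        have h1 : (gen 𝔥 a).map (ρ (s * t)) = ((gen 𝔥 a).map (ρ t)).map (ρ s) := by
          rw [map_mul]
          exact Submodule.map_comp (ρ t) (ρ s) _
        rw [h1, ht, hs]
      inv_mem' := by
        intro s (hs : (gen 𝔥 a).map (ρ s) = gen 𝔥 a)
        change (gen 𝔥 a).map (ρ s⁻¹) = gen 𝔥 a
        have h1 : ((gen 𝔥 a).map (ρ s)).map (ρ s⁻¹) = gen 𝔥 a := by
          have h2 : ((gen 𝔥 a).map (ρ s)).map (ρ s⁻¹) = (gen 𝔥 a).map (ρ (s⁻¹ * s)) := by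
            rw [map_mul]
            exact (Submodule.map_comp (ρ s) (ρ s⁻¹) _).symm
          rw [h2, inv_mul_cancel, map_one]
          exact Submodule.map_id _
        rw [hs] at h1
        exact h1 }
  have hrange : (Set.range fun s : Γ => gen 𝔥 (ρ s a)).Finite := by
    refine (Set.finite_iUnion (fun q : Γ ⧸ H1 => (Set.toFinite (P q.out)))).subset ?_
    rintro _ ⟨s, rfl⟩
    refine Set.mem_iUnion.2 ⟨QuotientGroup.mk s, ?_⟩
    obtain ⟨h, hh⟩ := QuotientGroup.mk_out_eq_mul H1 s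
    have h1 : P (QuotientGroup.mk (s := H1) s).out = P s := by
      rw [hh, hPmul, (hH1 h.1).1 h.2, ← hPmul, mul_one]
    rw [h1]
    exact Set.mem_insert _ _
  have hΔ : Δ.FiniteIndex := by
    have _ : Finite (Set.range fun s : Γ => gen 𝔥 (ρ s a)) := hrange
    have h1 : Finite (Γ ⧸ Δ) := by
      refine Finite.of_injective (fun q : Γ ⧸ Δ => (⟨gen 𝔥 (ρ q.out a), ⟨q.out, rfl⟩⟩ :
        Set.range fun s : Γ => gen 𝔥 (ρ s a))) ?_
      intro q q' h
      have h2 : gen 𝔥 (ρ q.out a) = gen 𝔥 (ρ q'.out a) := congrArg Subtype.val h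
      rw [← hgm, ← hgm] at h2
      have h3 : q.out⁻¹ * q'.out ∈ Δ := by
        change (gen 𝔥 a).map (ρ (q.out⁻¹ * q'.out)) = gen 𝔥 a
        have h4 : (gen 𝔥 a).map (ρ (q.out⁻¹ * q'.out)) =
            ((gen 𝔥 a).map (ρ q'.out)).map (ρ q.out⁻¹) := by
          rw [map_mul]
          exact Submodule.map_comp _ _ _
        have h5 : ((gen 𝔥 a).map (ρ q.out)).map (ρ q.out⁻¹) = (gen 𝔥 a).map (ρ (q.out⁻¹ * q.out)) := by
          rw [map_mul]
          exact (Submodule.map_comp _ _ _).symm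
        rw [h4, ← h2, h5, inv_mul_cancel, map_one]
        exact Submodule.map_id _
      have h4 : (QuotientGroup.mk q.out : Γ ⧸ Δ) = QuotientGroup.mk q'.out :=
        QuotientGroup.eq.2 h3
      rwa [QuotientGroup.out_eq', QuotientGroup.out_eq'] at h4
    exact Subgroup.finiteIndex_of_finite_quotient
  have hstab : ∀ s ∈ Δ, ∀ u ∈ gen 𝔥 a, ρ s u ∈ gen 𝔥 a := by
    intro s (hs : (gen 𝔥 a).map (ρ s) = gen 𝔥 a) u hu
    rw [← hs]
    exact Submodule.mem_map_of_mem hu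
  rcases hirr Δ hΔ _ hstab with h | h
  · apply ha
    have h1 := mem_gen_self 𝔥 a
    rw [h] at h1
    exact (Submodule.mem_bot k).1 h1
  · have h1 : b ∈ gen 𝔥 a := by rw [h]; exact Submodule.mem_top
    have hs' := hconj' s₀ _ _ hmem
    have hs0ab : ω (ρ s₀ a) (ρ s₀ b) = 0 := by rw [hωρ, hab, mul_zero]
    rcases pair_config ω 𝔥 hbr hsp hno halt ha hb hab hmem hs' hs₀ with h | h
    · have h2 := config ω 𝔥 hbr hsp hno halt ha hb hab hs0ab hmem hs' h.1 h.2.1 h.2.2.1 h.2.2.2 h1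
      exact h.2.1 (by rw [hanti, h2, neg_zero])
    · have h2 := config ω 𝔥 hbr hsp hno halt ha hb hab (by rw [hanti, hs0ab, neg_zero]) hmem
        (by rw [SS_comm]; exact hs') h.1 h.2.1 h.2.2.1 h.2.2.2 h1
      exact h.2.1 (by rw [hanti, h2, neg_zero])

end

end Pool.Agent.W528.Tor
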