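import Mathlib
import Pool.Agent.W528.Tor.Core3

/-!
# Elements of rank at most two of the symplectic Lie algebra
-/

set_option linter.unusedSectionVars false
set_option linter.deprecated false

namespace Pool.Agent.W528.Tor

open Module Pool.Agent.H204R3.SP Pool.Agent.W529.Ta

noncomputable section

variable {k : Type*} [Field k] [CharZero k] {V : Type*} [AddCommGroup V] [Module k V]
  [FiniteDimensional k V] (ω : V →ₗ[k] V →ₗ[k] k)

theorem SS_skew (halt : ∀ v, ω v v = 0) (a b u w : V) :
    ω (SS ω a b u) w + ω u (SS ω a b w) = 0 := by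
  have hanti := alt_anti halt
  rw [SS_apply, SS_apply, map_add, map_add, map_smul, map_smul, map_smul, map_smul,
    LinearMap.add_apply, LinearMap.smul_apply, LinearMap.smul_apply]
  simp only [smul_eq_mul]
  rw [hanti u b, hanti u a]
  ring

theorem peel (halt : ∀ v, ω v v = 0) (hnd : ∀ u, (∀ v, ω v u = 0) → u = 0)
    {N : Module.End k V} (hsp : ∀ u w, ω (N u) w + ω u (N w) = 0) (hN : N ≠ 0) :
    ∃ (c : k) (p : V) (N' : Module.End k V), N = N' + c • SS ω p p ∧
      (∀ u w, ω (N' u) w + ω u (N' w) = 0) ∧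
      finrank k (LinearMap.range N') < finrank k (LinearMap.range N) := by
  have hanti := alt_anti halt
  obtain ⟨v, hv⟩ : ∃ v, ω v (N v) ≠ 0 := by
    by_contra hcon
    push Not at hcon
    apply hN
    refine LinearMap.ext fun w => ?_
    rw [LinearMap.zero_apply]
    apply hnd
    intro u
    have h1 := hcon (u + w)
    simp only [map_add, LinearMap.add_apply, hcon u, hcon w, zero_add, add_zero] at h1
    have h2 := hsp u w
    rw [hanti (N u) w] at h2
    have h3 : (2 : k) * ω u (N w) = 0 := by linear_combination h1 + h2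
    exact (mul_eq_zero.1 h3).resolve_left two_ne_zero
  obtain ⟨c, hc⟩ : ∃ c, c = ω v (N v) := ⟨_, rfl⟩
  have hc0 : c ≠ 0 := by rw [hc]; exact hv
  obtain ⟨N', hN'⟩ : ∃ N', N' = N + (1 / (2 * c)) • SS ω (N v) (N v) := ⟨_, rfl⟩
  have hsp' : ∀ u w, ω (N' u) w + ω u (N' w) = 0 := by
    intro u w
    have h1 := hsp u w
    have h2 := SS_skew ω halt (N v) (N v) u w
    rw [hN', LinearMap.add_apply, LinearMap.add_apply, LinearMap.smul_apply, LinearMap.smul_apply,
      map_add, map_add, LinearMap.add_apply, map_smul, map_smul, LinearMap.smul_apply, smul_eq_mul,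
      smul_eq_mul]
    linear_combination h1 + (1 / (2 * c)) * h2
  have h0 : N' v = 0 := by
    rw [hN', LinearMap.add_apply, LinearMap.smul_apply, SS_apply, hanti (N v) v, ← hc, ← add_smul,
      smul_smul]
    have h1 : 1 / (2 * c) * (-c + -c) = -1 := by
      field_simp
      ring
    rw [h1, neg_one_smul, add_neg_cancel]
  refine ⟨-(1 / (2 * c)), N v, N', ?_, hsp', ?_⟩
  · rw [hN', neg_smul, add_neg_cancel_right]
  · apply Submodule.finrank_lt_finrank_of_lt
    refine lt_of_le_of_ne ?_ ?_
    · rintro _ ⟨w, rfl⟩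
      rw [hN', LinearMap.add_apply, LinearMap.smul_apply, SS_apply]
      refine Submodule.add_mem _ ⟨w, rfl⟩ (Submodule.smul_mem _ _ (Submodule.add_mem _ ?_ ?_))
      · exact Submodule.smul_mem _ _ ⟨v, rfl⟩
      · exact Submodule.smul_mem _ _ ⟨v, rfl⟩
    · intro heq
      have h1 : N v ∈ LinearMap.range N' := by
        rw [heq]
        exact ⟨v, rfl⟩
      obtain ⟨w, hw⟩ := h1
      have h2 := hsp' v w
      rw [h0, map_zero, LinearMap.zero_apply, zero_add, hw] at h2
      exact hv h2

theorem range_eq_zero {N : Module.End k V} (h : finrank k (LinearMap.range N) = 0) : N = 0 := by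
  rw [Submodule.finrank_eq_zero, LinearMap.range_eq_bot] at h
  exact h

/-- A square-zero element of rank at most two. -/
theorem exists_SS [IsAlgClosed k] (halt : ∀ v, ω v v = 0) (hnd : ∀ u, (∀ v, ω v u = 0) → u = 0)
    {N : Module.End k V} (hsp : ∀ u w, ω (N u) w + ω u (N w) = 0) (h2 : N * N = 0)
    (hr : finrank k (LinearMap.range N) ≤ 2) : ∃ a b, ω a b = 0 ∧ N = SS ω a b := by
  have hanti := alt_anti halt
  have key : ∃ a b, N = SS ω a b := by
    by_cases hN : N = 0
    · refine ⟨0, 0, ?_⟩
      rw [hN]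
      refine LinearMap.ext fun v => ?_
      rw [SS_apply]
      simp
    obtain ⟨c, p, N', h1, h3, h4⟩ := peel ω halt hnd hsp hN
    by_cases hN' : N' = 0
    · refine ⟨c • p, p, ?_⟩
      rw [h1, hN', zero_add]
      refine LinearMap.ext fun v => ?_
      rw [LinearMap.smul_apply, SS_apply, SS_apply, map_smul, LinearMap.smul_apply, smul_eq_mul]
      module
    obtain ⟨c', p', N'', h5, h6, h7⟩ := peel ω halt hnd h3 hN'
    have h8 : N'' = 0 := range_eq_zero (by omega)
    obtain ⟨s, hs⟩ := IsAlgClosed.exists_pow_nat_eq c (n := 2) two_pos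
    obtain ⟨r, hr⟩ := IsAlgClosed.exists_pow_nat_eq (-c') (n := 2) two_pos
    refine ⟨s • p + r • p', s • p - r • p', ?_⟩
    have hc' : c' = -(r ^ 2) := by rw [hr, neg_neg]
    rw [h1, h5, h8, zero_add, ← hs, hc']
    refine LinearMap.ext fun v => ?_
    rw [LinearMap.add_apply, LinearMap.smul_apply, LinearMap.smul_apply, SS_apply, SS_apply,
      SS_apply, map_add, map_sub, map_smul, map_smul, LinearMap.add_apply, LinearMap.sub_apply,
      LinearMap.smul_apply, LinearMap.smul_apply, smul_eq_mul, smul_eq_mul]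
    module
  obtain ⟨a, b, rfl⟩ := key
  refine ⟨a, b, ?_, rfl⟩
  by_cases ha : a = 0
  · rw [ha, map_zero, LinearMap.zero_apply]
  have h3 := LinearMap.congr_fun h2 a
  have h3' : SS ω a b a = ω b a • a := by rw [SS_apply, halt, zero_smul, zero_add]
  rw [Module.End.mul_apply, h3', map_smul, h3', smul_smul, LinearMap.zero_apply] at h3
  have h4 := (smul_eq_zero.1 h3).resolve_right ha
  have h5 : ω b a = 0 := by
    rcases mul_eq_zero.1 h4 with h | h <;> exact h
  rw [hanti, h5, neg_zero]

end

end Pool.Agent.W528.Tor
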